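import Mathlib

namespace Pool.ZC71
open Finset

theorem choose_mul_choose_sum (n a k : ℕ) :
    n.choose a * n.choose k
      = ∑ ij ∈ antidiagonal k, a.choose ij.1 * (a + ij.2).choose a * n.choose (a + ij.2) := by
  rcases Nat.lt_or_ge n a with h | h
  · rw [Nat.choose_eq_zero_of_lt h, zero_mul]
    symm
    apply sum_eq_zero
    intro ij _
    rw [Nat.choose_eq_zero_of_lt (show n < a + ij.2 by omega), mul_zero]
  · obtain ⟨d, rfl⟩ := Nat.exists_eq_add_of_le h
    rw [Nat.add_choose_eq a d k, mul_sum]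
    apply sum_congr rfl
    intro ij _
    have h1 := Nat.choose_mul (n := a + d) (k := a + ij.2) (s := a) (Nat.le_add_right _ _)
    rw [Nat.add_sub_cancel_left, Nat.add_sub_cancel_left] at h1
    calc (a + d).choose a * (a.choose ij.1 * d.choose ij.2)
        = a.choose ij.1 * ((a + d).choose a * d.choose ij.2) := by ring
      _ = a.choose ij.1 * ((a + d).choose (a + ij.2) * (a + ij.2).choose a) := by rw [h1]
      _ = _ := by ring

theorem one_add_pow_sum {R : Type*} [CommRing R] (y : R) {n E : ℕ} (h : n ≤ E) :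
    (1 + y) ^ n = ∑ k ∈ range (E + 1), y ^ k * (n.choose k : R) := by
  rw [add_comm, add_pow]
  simp only [one_pow, mul_one]
  apply sum_subset
  · intro k hk
    simp only [mem_range] at hk ⊢
    omega
  · intro k _ hk
    simp only [mem_range, not_lt] at hk
    rw [Nat.choose_eq_zero_of_lt (by omega)]
    simp

theorem px {R I : Type*} [CommRing R] (S : Finset I) (p : I → ℤ) (e f : I → ℕ) (m T : ℕ)
    (h : ∀ i1 i2 : ℕ, i1 + m * i2 < T →
      ∑ x ∈ S, p x * ((e x).choose i1 : ℤ) * ((f x).choose i2 : ℤ) = 0)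
    (q u v : R) (a : ℕ) :
    q ^ (T - a) ∣ ∑ x ∈ S, (p x : R) * (1 + q * u) ^ (e x) * (1 + q ^ m * v) ^ (f x)
      * ((e x).choose a : R) := by
  obtain ⟨E, hE⟩ : ∃ E : ℕ, ∀ x ∈ S, e x ≤ E := ⟨S.sup e, fun x hx => le_sup hx⟩
  obtain ⟨F, hF⟩ : ∃ F : ℕ, ∀ x ∈ S, f x ≤ F := ⟨S.sup f, fun x hx => le_sup hx⟩
  have key : ∀ k l : ℕ, a + k + m * l < T →
      ∑ x ∈ S, (p x : R) * ((e x).choose a : R) * ((e x).choose k : R) * ((f x).choose l : R)
        = 0 := by
    intro k l hkl
    have hz : ∑ x ∈ S, p x * ((e x).choose a : ℤ) * ((e x).choose k : ℤ)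
        * ((f x).choose l : ℤ) = 0 := by
      have h1 : ∀ x ∈ S, p x * ((e x).choose a : ℤ) * ((e x).choose k : ℤ)
          * ((f x).choose l : ℤ)
          = ∑ ij ∈ antidiagonal k, ((a.choose ij.1 : ℤ) * ((a + ij.2).choose a : ℤ))
            * (p x * ((e x).choose (a + ij.2) : ℤ) * ((f x).choose l : ℤ)) := by
        intro x _
        have h2 := choose_mul_choose_sum (e x) a k
        have h3 : ((e x).choose a : ℤ) * ((e x).choose k : ℤ)
            = ∑ ij ∈ antidiagonal k, (a.choose ij.1 : ℤ) * ((a + ij.2).choose a : ℤ)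
              * ((e x).choose (a + ij.2) : ℤ) := by
          exact_mod_cast h2
        calc p x * ((e x).choose a : ℤ) * ((e x).choose k : ℤ) * ((f x).choose l : ℤ)
            = (((e x).choose a : ℤ) * ((e x).choose k : ℤ)) * (p x * ((f x).choose l : ℤ)) := by
              ring
          _ = _ := by
              rw [h3, sum_mul]
              apply sum_congr rfl
              intro ij _
              ring
      rw [sum_congr rfl h1, sum_comm]
      apply sum_eq_zero
      intro ij hij
      rw [← mul_sum]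
      have h4 : ij.1 + ij.2 = k := mem_antidiagonal.mp hij
      rw [h (a + ij.2) l (by omega), mul_zero]
    have := congrArg (Int.cast : ℤ → R) hz
    push_cast at this
    exact this
  have hexp : ∑ x ∈ S, (p x : R) * (1 + q * u) ^ (e x) * (1 + q ^ m * v) ^ (f x)
      * ((e x).choose a : R)
      = ∑ k ∈ range (E + 1), ∑ l ∈ range (F + 1), (q ^ (k + m * l) * (u ^ k * v ^ l))
        * ∑ x ∈ S, (p x : R) * ((e x).choose a : R) * ((e x).choose k : R)
          * ((f x).choose l : R) := by
    have h1 : ∀ x ∈ S, (p x : R) * (1 + q * u) ^ (e x) * (1 + q ^ m * v) ^ (f x)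
        * ((e x).choose a : R)
        = ∑ k ∈ range (E + 1), ∑ l ∈ range (F + 1), (q ^ (k + m * l) * (u ^ k * v ^ l))
          * ((p x : R) * ((e x).choose a : R) * ((e x).choose k : R)
          * ((f x).choose l : R)) := by
      intro x hx
      rw [one_add_pow_sum (q * u) (hE x hx), one_add_pow_sum (q ^ m * v) (hF x hx)]
      rw [mul_assoc (p x : R), sum_mul_sum, mul_sum, sum_mul]
      apply sum_congr rfl
      intro k _
      rw [mul_sum, sum_mul]
      apply sum_congr rfl
      intro l _
      rw [mul_pow, mul_pow, pow_add, pow_mul]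
      ring
    rw [sum_congr rfl h1, sum_comm]
    apply sum_congr rfl
    intro k _
    rw [sum_comm]
    apply sum_congr rfl
    intro l _
    rw [mul_sum]
  rw [hexp]
  apply dvd_sum
  intro k _
  apply dvd_sum
  intro l _
  rcases Nat.lt_or_ge (a + k + m * l) T with h1 | h1
  · rw [key k l h1, mul_zero]
    exact dvd_zero _
  · apply Dvd.dvd.mul_right
    apply Dvd.dvd.mul_right
    exact pow_dvd_pow q (by omega)

end Pool.ZC71
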