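import Mathlib

namespace Pool.ZC71
open Finset

attribute [local instance] Matrix.seminormedAddCommGroup

theorem sum_card_eq (s : ℕ) : ∑ i : Fin (2 * s), (2 * s - (i : ℕ)) = s * (2 * s + 1) := by
  rw [Fin.sum_univ_eq_sum_range (fun i => 2 * s - i) (2 * s)]
  have h1 : ∀ n : ℕ, 2 * ∑ i ∈ range n, (n - i) = n * (n + 1) := by
    intro n
    induction n with
    | zero => simp
    | succ n ih =>
      rw [sum_range_succ]
      have h2 : ∀ i ∈ range n, n + 1 - i = (n - i) + 1 := by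
        intro i hi
        simp only [mem_range] at hi
        omega
      rw [sum_congr rfl h2, sum_add_distrib]
      simp only [sum_const, card_range, smul_eq_mul, mul_one]
      have h3 : n + 1 - n = 1 := by omega
      rw [h3]
      nlinarith [ih]
  have h4 := h1 (2 * s)
  nlinarith [h4]

/-- Siegel's lemma for the weighted system of equations. -/
theorem si {β : Type*} [Fintype β] (s m c1 C : ℕ) (hs : 0 < s) (hm : 0 < m) (hc1 : 0 < c1)
    (hC : C = m * (2 * s + 1) + c1) (hcard : Fintype.card β = C * s)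
    (e f : β → ℕ) (he : ∀ x, e x ≤ C) (hf : ∀ x, f x ≤ C) :
    ∃ p : β → ℤ, p ≠ 0 ∧
      (∀ i1 i2 : ℕ, i1 + m * i2 < 2 * s * m →
        ∑ x, p x * ((e x).choose i1 : ℤ) * ((f x).choose i2 : ℤ) = 0) ∧
      ∀ x, |(p x : ℝ)| ≤ (((C * s : ℕ) : ℝ) * 4 ^ C) ^ (((m * (2 * s + 1) : ℕ) : ℝ) / (c1 : ℝ)) := by
  classical
  set A : Matrix (Σ i : Fin (2 * s), Fin (m * (2 * s - (i : ℕ)))) β ℤ :=
    Matrix.of fun i x => ((e x).choose (i.2 : ℕ) : ℤ) * ((f x).choose (i.1 : ℕ) : ℤ) with hA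
  have hα : Fintype.card (Σ i : Fin (2 * s), Fin (m * (2 * s - (i : ℕ))))
      = m * (2 * s + 1) * s := by
    rw [Fintype.card_sigma]
    simp only [Fintype.card_fin]
    rw [← mul_sum, sum_card_eq]
    ring
  have hlt : Fintype.card (Σ i : Fin (2 * s), Fin (m * (2 * s - (i : ℕ)))) < Fintype.card β := by
    rw [hα, hcard, hC]
    have : 0 < c1 * s := by positivity
    nlinarith
  have hpos : 0 < Fintype.card (Σ i : Fin (2 * s), Fin (m * (2 * s - (i : ℕ)))) := by
    rw [hα]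
    positivity
  obtain ⟨p, hp0, hp1, hp2⟩ := Int.Matrix.exists_ne_zero_int_vec_norm_le A hlt hpos
  refine ⟨p, hp0, ?_, ?_⟩
  · intro i1 i2 hi
    have h2 : i2 < 2 * s := by
      by_contra hcon
      have h3 : m * (2 * s) ≤ m * i2 := Nat.mul_le_mul_left m (by omega)
      nlinarith
    have h3 : i1 < m * (2 * s - i2) := by
      have h4 : m * (2 * s - i2) + m * i2 = 2 * s * m := by
        rw [← mul_add, Nat.sub_add_cancel h2.le]
        ring
      omega
    have h5 := congrFun hp1 ⟨⟨i2, h2⟩, ⟨i1, h3⟩⟩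
    simp only [Matrix.mulVec, dotProduct, hA, Matrix.of_apply, Pi.zero_apply] at h5
    rw [← h5]
    apply sum_congr rfl
    intro x _
    ring
  · intro x
    have h1 : |(p x : ℝ)| ≤ ‖p‖ := by
      have := norm_le_pi_norm p x
      rw [Int.norm_eq_abs] at this
      exact this
    refine (h1.trans hp2).trans ?_
    have h2 : ‖A‖ ≤ 4 ^ C := by
      rw [Matrix.norm_le_iff (by positivity)]
      intro i y
      rw [hA, Matrix.of_apply, Int.norm_eq_abs]
      push_cast
      rw [abs_of_nonneg (by positivity)]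
      have h3 : ((e y).choose (i.2 : ℕ) : ℝ) ≤ 2 ^ C := by
        have h4 : (e y).choose (i.2 : ℕ) ≤ 2 ^ C :=
          (Nat.choose_le_two_pow _ _).trans (Nat.pow_le_pow_right (by norm_num) (he y))
        exact_mod_cast h4
      have h5 : ((f y).choose (i.1 : ℕ) : ℝ) ≤ 2 ^ C := by
        have h4 : (f y).choose (i.1 : ℕ) ≤ 2 ^ C :=
          (Nat.choose_le_two_pow _ _).trans (Nat.pow_le_pow_right (by norm_num) (hf y))
        exact_mod_cast h4
      calc ((e y).choose (i.2 : ℕ) : ℝ) * ((f y).choose (i.1 : ℕ) : ℝ) ≤ 2 ^ C * 2 ^ C := by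
            apply mul_le_mul h3 h5 (by positivity) (by positivity)
        _ = 4 ^ C := by
            rw [← mul_pow]
            norm_num
    have h3 : max 1 ‖A‖ ≤ (4 : ℝ) ^ C := by
      apply max_le _ h2
      exact one_le_pow₀ (by norm_num)
    have hexp : ((Fintype.card (Σ i : Fin (2 * s), Fin (m * (2 * s - (i : ℕ)))) : ℕ) : ℝ)
        / ((Fintype.card β : ℕ) - (Fintype.card (Σ i : Fin (2 * s),
          Fin (m * (2 * s - (i : ℕ)))) : ℕ))
        = ((m * (2 * s + 1) : ℕ) : ℝ) / (c1 : ℝ) := by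
      have hs' : (s : ℝ) ≠ 0 := by positivity
      rw [hα, hcard, hC]
      have h6 : (((m * (2 * s + 1) + c1) * s : ℕ) : ℝ) - ((m * (2 * s + 1) * s : ℕ) : ℝ)
          = (c1 : ℝ) * s := by
        push_cast
        ring
      rw [h6]
      have h7 : ((m * (2 * s + 1) * s : ℕ) : ℝ) = ((m * (2 * s + 1) : ℕ) : ℝ) * s := by
        push_cast
        ring
      rw [h7, mul_div_mul_right _ _ hs']
    rw [hexp, hcard]
    apply Real.rpow_le_rpow (by positivity) _ (by positivity)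
    apply mul_le_mul_of_nonneg_left h3 (by positivity)

/-- the same with `c1 = m / (4 s)` and the bound `exp (K m)`. -/
theorem si_exp {β : Type*} [Fintype β] (s m C : ℕ) (hs : 0 < s) (hm : 8 * s ≤ m)
    (hC : C = m * (2 * s + 1) + m / (4 * s)) (hcard : Fintype.card β = C * s)
    (e f : β → ℕ) (he : ∀ x, e x ≤ C) (hf : ∀ x, f x ≤ C) :
    ∃ p : β → ℤ, p ≠ 0 ∧
      (∀ i1 i2 : ℕ, i1 + m * i2 < 2 * s * m →
        ∑ x, p x * ((e x).choose i1 : ℤ) * ((f x).choose i2 : ℤ) = 0) ∧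
      ∀ x, |(p x : ℝ)| ≤ Real.exp ((8 * s * (2 * s + 1) * (2 * s + 2) * (s + 2) : ℕ) * m) := by
  have hm0 : 0 < m := by omega
  have hc1 : 0 < m / (4 * s) := Nat.div_pos (by omega) (by omega)
  have hdiv : m ≤ 8 * s * (m / (4 * s)) := by
    have h1 := Nat.div_add_mod m (4 * s)
    have h2 := Nat.mod_lt m (show 0 < 4 * s by omega)
    have h3 : 4 * s ≤ 4 * s * (m / (4 * s)) := Nat.le_mul_of_pos_right _ hc1
    have h4 : 8 * s * (m / (4 * s)) = 4 * s * (m / (4 * s)) + 4 * s * (m / (4 * s)) := by ring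
    omega
  obtain ⟨p, hp0, hp1, hp2⟩ := si s m (m / (4 * s)) C hs hm0 hc1 hC hcard e f he hf
  refine ⟨p, hp0, hp1, fun x => (hp2 x).trans ?_⟩
  set c1 := m / (4 * s) with hc1def
  have hcR : (0 : ℝ) < c1 := by exact_mod_cast hc1
  have hsR : (0 : ℝ) < s := by exact_mod_cast hs
  have hmR : (0 : ℝ) < m := by exact_mod_cast hm0
  have hC0 : 0 < C := by
    rw [hC]
    positivity
  have hCR : (0 : ℝ) < C := by exact_mod_cast hC0
  have hCm : (C : ℝ) ≤ (2 * s + 2) * m := by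
    have h1 : c1 ≤ m := Nat.div_le_self _ _
    have h2 : C ≤ (2 * s + 2) * m := by
      rw [hC]
      nlinarith
    exact_mod_cast h2
  have hexp : ((m * (2 * s + 1) : ℕ) : ℝ) / (c1 : ℝ) ≤ 8 * s * (2 * s + 1) := by
    rw [div_le_iff₀ hcR]
    have h1 : (m : ℝ) ≤ 8 * s * c1 := by exact_mod_cast hdiv
    push_cast
    nlinarith
  have hbase : (((C * s : ℕ) : ℝ) * 4 ^ C) ≤ Real.exp ((s + 2) * C) := by
    have h1 : ((C * s : ℕ) : ℝ) ≤ Real.exp (C * s) := by
      push_cast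
      have := Real.add_one_le_exp ((C : ℝ) * s)
      linarith
    have h2 : (4 : ℝ) ≤ Real.exp 2 := by
      have h3 := Real.add_one_le_exp (1 : ℝ)
      have h4 : Real.exp 2 = Real.exp 1 * Real.exp 1 := by
        rw [← Real.exp_add]
        norm_num
      rw [h4]
      nlinarith
    have h3 : (4 : ℝ) ^ C ≤ Real.exp (2 * C) := by
      calc (4 : ℝ) ^ C ≤ (Real.exp 2) ^ C := pow_le_pow_left₀ (by norm_num) h2 C
        _ = Real.exp (2 * C) := by
            rw [← Real.exp_nat_mul]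
            ring_nf
    calc ((C * s : ℕ) : ℝ) * 4 ^ C ≤ Real.exp (C * s) * Real.exp (2 * C) :=
          mul_le_mul h1 h3 (by positivity) (Real.exp_pos _).le
      _ = Real.exp ((s + 2) * C) := by
          rw [← Real.exp_add]
          ring_nf
  have hbase1 : (1 : ℝ) ≤ ((C * s : ℕ) : ℝ) * 4 ^ C := by
    have h1 : (1 : ℝ) ≤ ((C * s : ℕ) : ℝ) := by
      have : 1 ≤ C * s := Nat.mul_pos hC0 hs
      exact_mod_cast this
    have h2 : (1 : ℝ) ≤ (4 : ℝ) ^ C := one_le_pow₀ (by norm_num)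
    nlinarith
  calc (((C * s : ℕ) : ℝ) * 4 ^ C) ^ (((m * (2 * s + 1) : ℕ) : ℝ) / (c1 : ℝ))
      ≤ (((C * s : ℕ) : ℝ) * 4 ^ C) ^ (8 * (s : ℝ) * (2 * s + 1)) :=
        Real.rpow_le_rpow_of_exponent_le hbase1 hexp
    _ ≤ (Real.exp ((s + 2) * C)) ^ (8 * (s : ℝ) * (2 * s + 1)) :=
        Real.rpow_le_rpow (by positivity) hbase (by positivity)
    _ = Real.exp ((s + 2) * C * (8 * (s : ℝ) * (2 * s + 1))) := by
        rw [← Real.exp_mul]
    _ ≤ Real.exp ((8 * s * (2 * s + 1) * (2 * s + 2) * (s + 2) : ℕ) * m) := by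
        apply Real.exp_le_exp.mpr
        push_cast
        calc ((s : ℝ) + 2) * C * (8 * (s : ℝ) * (2 * s + 1))
            = ((s : ℝ) + 2) * (8 * (s : ℝ) * (2 * s + 1)) * C := by ring
          _ ≤ ((s : ℝ) + 2) * (8 * (s : ℝ) * (2 * s + 1)) * ((2 * s + 2) * m) := by
              apply mul_le_mul_of_nonneg_left hCm (by positivity)
          _ = _ := by ring

end Pool.ZC71
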