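import Mathlib

namespace Pool.ZC71
open Polynomial Finset

/-- Gauss reduction to distinct degrees, for any family of linear operators. -/
theorem exists_distinct_lin {K : Type*} [Field K] {r : ℕ} (T : Fin r → K[X] →ₗ[K] K[X])
    (N : ℕ) (f : Fin r → K[X])
    (hf : LinearIndependent K f) (hN : ∑ l, (f l).natDegree ≤ N) :
    ∃ g : Fin r → K[X], LinearIndependent K g ∧
      (Function.Injective fun l => (g l).natDegree) ∧
      Submodule.span K (Set.range g) = Submodule.span K (Set.range f) ∧
      (Matrix.of fun i l : Fin r => T i (g l)).det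
        = (Matrix.of fun i l : Fin r => T i (f l)).det := by
  classical
  induction N using Nat.strong_induction_on generalizing f with
  | _ N ih =>
    by_cases hinj : Function.Injective fun l => (f l).natDegree
    · exact ⟨f, hf, hinj, rfl, rfl⟩
    · rw [Function.Injective] at hinj
      push Not at hinj
      obtain ⟨a, b, hab, hne⟩ := hinj
      have ha0 : f a ≠ 0 := hf.ne_zero a
      have hb0 : f b ≠ 0 := hf.ne_zero b
      set c : K := (f a).leadingCoeff / (f b).leadingCoeff with hc
      have hc0 : c ≠ 0 := div_ne_zero (leadingCoeff_ne_zero.mpr ha0) (leadingCoeff_ne_zero.mpr hb0)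
      set v : Fin r → K := fun l => if l = a then -c else 0 with hv
      set g : Fin r → K[X] := f + (v · • f b) with hg
      have hvb : v b = 0 := by
        simp only [hv]
        rw [if_neg (Ne.symm hne)]
      have hgl : LinearIndependent K g := (linearIndependent_add_smul_iff hvb).mpr hf
      have hga : g a = f a - c • f b := by
        simp only [hg, hv, Pi.add_apply, if_true, neg_smul]
        exact (sub_eq_add_neg _ _).symm
      have hgo : ∀ l, l ≠ a → g l = f l := by
        intro l hl
        simp only [hg, hv, Pi.add_apply, if_neg hl, zero_smul, add_zero]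
      have hlt : (g a).natDegree < (f a).natDegree := by
        have hdeg : (f a).degree = (c • f b).degree := by
          rw [smul_eq_C_mul, degree_C_mul hc0, degree_eq_natDegree ha0,
            degree_eq_natDegree hb0, hab]
        have hlc : (f a).leadingCoeff = (c • f b).leadingCoeff := by
          rw [smul_eq_C_mul, leadingCoeff_mul, leadingCoeff_C, hc,
            div_mul_cancel₀ _ (leadingCoeff_ne_zero.mpr hb0)]
        have h3 := degree_sub_lt_left hdeg ha0 hlc
        rw [← hga] at h3
        exact natDegree_lt_natDegree (hgl.ne_zero a) h3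
      have hsum : ∑ l, (g l).natDegree < ∑ l, (f l).natDegree := by
        apply sum_lt_sum
        · intro l _
          by_cases hl : l = a
          · rw [hl]
            exact hlt.le
          · rw [hgo l hl]
        · exact ⟨a, mem_univ a, hlt⟩
      obtain ⟨g', h1, h2, h3, h4⟩ := ih (∑ l, (g l).natDegree) (lt_of_lt_of_le hsum hN) g hgl le_rfl
      refine ⟨g', h1, h2, ?_, ?_⟩
      · rw [h3]
        have hgb : g b = f b := hgo b (Ne.symm hne)
        apply le_antisymm
        · rw [Submodule.span_le]
          rintro _ ⟨l, rfl⟩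
          by_cases hl : l = a
          · rw [hl, hga]
            exact Submodule.sub_mem _ (Submodule.subset_span ⟨a, rfl⟩)
              (Submodule.smul_mem _ _ (Submodule.subset_span ⟨b, rfl⟩))
          · rw [hgo l hl]
            exact Submodule.subset_span ⟨l, rfl⟩
        · rw [Submodule.span_le]
          rintro _ ⟨l, rfl⟩
          by_cases hl : l = a
          · have h5 : f a = g a + c • g b := by
              rw [hga, hgb]
              abel
            rw [hl, h5]
            exact Submodule.add_mem _ (Submodule.subset_span ⟨a, rfl⟩)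
              (Submodule.smul_mem _ _ (Submodule.subset_span ⟨b, rfl⟩))
          · rw [← hgo l hl]
            exact Submodule.subset_span ⟨l, rfl⟩
      · rw [h4]
        have h5 : (Matrix.of fun i l : Fin r => T i (g l))
            = (Matrix.of fun i l : Fin r => T i (f l)).updateCol a
              (fun k => (Matrix.of fun i l : Fin r => T i (f l)) k a
                + (-C c) • (Matrix.of fun i l : Fin r => T i (f l)) k b) := by
          ext1 k l
          by_cases hl : l = a
          · subst hl
            rw [Matrix.updateCol_self]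
            simp only [Matrix.of_apply, hga]
            rw [map_sub, map_smul, smul_eq_mul, smul_eq_C_mul]
            ring
          · rw [Matrix.updateCol_ne hl]
            simp only [Matrix.of_apply, hgo l hl]
        rw [h5, Matrix.det_updateCol_add_smul_self _ hne]

theorem coeff_prod_le' {K ι : Type*} [CommRing K] (s : Finset ι) (f : ι → K[X]) (n : ι → ℕ)
    (h : ∀ i ∈ s, (f i).natDegree ≤ n i) :
    (∏ i ∈ s, f i).coeff (∑ i ∈ s, n i) = ∏ i ∈ s, (f i).coeff (n i) := by
  classical
  induction s using Finset.induction_on with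
  | empty => simp
  | insert a s ha ih =>
    have h2 : (∏ i ∈ s, f i).natDegree ≤ ∑ i ∈ s, n i :=
      (natDegree_prod_le s f).trans (sum_le_sum fun i hi => h i (mem_insert_of_mem hi))
    rw [prod_insert ha, sum_insert ha, prod_insert ha,
      coeff_mul_add_eq_of_natDegree_le (h a (mem_insert_self a s)) h2,
      ih (fun i hi => h i (mem_insert_of_mem hi))]

/-- Linear operators `T i` with symbol `c i * descPochhammer i`: the determinant does not vanish
on linearly independent families. -/
theorem det_lin_ne_zero {K : Type*} [Field K] [CharZero K] {r : ℕ}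
    (T : Fin r → K[X] →ₗ[K] K[X]) (c : Fin r → K) (hc : ∀ i, c i ≠ 0)
    (hT1 : ∀ i g, (T i g).natDegree ≤ g.natDegree)
    (hT2 : ∀ i g, (T i g).coeff g.natDegree
      = g.leadingCoeff * (c i * (descPochhammer K (i : ℕ)).eval (g.natDegree : K)))
    (f : Fin r → K[X]) (hf : LinearIndependent K f) :
    (Matrix.of fun i l : Fin r => T i (f l)).det ≠ 0 := by
  obtain ⟨g, hg, hd, _, hdet⟩ := exists_distinct_lin T _ f hf le_rfl
  rw [← hdet]
  have h0 : ∀ l, g l ≠ 0 := fun l => hg.ne_zero l
  intro hz
  have h1 : (Matrix.of fun i l : Fin r => T i (g l)).det.coeff (∑ l, (g l).natDegree) = 0 := by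
    rw [hz, coeff_zero]
  rw [Matrix.det_apply', finsetSum_coeff] at h1
  have h2 : ∀ σ : Equiv.Perm (Fin r),
      ((((Equiv.Perm.sign σ : ℤˣ) : ℤ) : K[X])
        * ∏ l, (Matrix.of fun i l : Fin r => T i (g l)) (σ l) l).coeff
        (∑ l, (g l).natDegree)
      = (((Equiv.Perm.sign σ : ℤˣ) : ℤ) : K) * ∏ l, ((g l).leadingCoeff
        * (c (σ l) * (descPochhammer K (σ l : Fin r)).eval ((g l).natDegree : K))) := by
    intro σ
    have h3 : ((((Equiv.Perm.sign σ : ℤˣ) : ℤ) : K[X]))
        = C (((Equiv.Perm.sign σ : ℤˣ) : ℤ) : K) := by simp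
    have h7 := coeff_prod_le' (univ : Finset (Fin r))
      (fun l => (Matrix.of fun i l : Fin r => T i (g l)) (σ l) l)
      (fun l => (g l).natDegree) fun l _ => hT1 (σ l) (g l)
    rw [h3, coeff_C_mul, h7]
    congr 1
    exact prod_congr rfl fun l _ => hT2 (σ l) (g l)
  rw [sum_congr rfl fun σ _ => h2 σ] at h1
  have h4 : (Matrix.of fun i l : Fin r => (g l).leadingCoeff
      * (c i * (descPochhammer K (i : ℕ)).eval ((g l).natDegree : K))).det = 0 := by
    rw [Matrix.det_apply', ← h1]
    rfl
  have h8 := Matrix.det_mul_row (fun l => (g l).leadingCoeff)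
    (Matrix.of fun i l : Fin r => c i * (descPochhammer K (i : ℕ)).eval ((g l).natDegree : K))
  simp only [Matrix.of_apply] at h8
  rw [h8] at h4
  have h9 := Matrix.det_mul_column (fun i : Fin r => c i)
    (Matrix.of fun i l : Fin r => (descPochhammer K (i : ℕ)).eval ((g l).natDegree : K))
  simp only [Matrix.of_apply] at h9
  rw [h9] at h4
  have h5 : (Matrix.of fun i l : Fin r =>
      (descPochhammer K (i : ℕ)).eval ((g l).natDegree : K)).det
      = (Matrix.vandermonde fun l => ((g l).natDegree : K)).det := by
    rw [Matrix.det_eval_matrixOfPolynomials_eq_det_vandermonde _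
      (fun i : Fin r => descPochhammer K (i : ℕ)) (fun i => descPochhammer_natDegree K i)
      (fun i => monic_descPochhammer K i), ← Matrix.det_transpose]
    rfl
  rw [h5] at h4
  rcases mul_eq_zero.mp h4 with h6 | h6
  · rw [prod_eq_zero_iff] at h6
    obtain ⟨l, _, hl⟩ := h6
    exact h0 l (leadingCoeff_eq_zero.mp hl)
  · rcases mul_eq_zero.mp h6 with h6 | h6
    · rw [prod_eq_zero_iff] at h6
      obtain ⟨l, _, hl⟩ := h6
      exact hc l hl
    · exact Matrix.det_vandermonde_ne_zero_iff.mpr
        (fun a b hab => hd (Nat.cast_injective hab)) h6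

/-- the difference operator -/
noncomputable def dop {K : Type*} [Field K] (h : K) : Module.End K K[X] := taylor h - 1

theorem dop_apply {K : Type*} [Field K] (h : K) (q : K[X]) : dop h q = taylor h q - q := rfl

theorem taylor_coeff_top {K : Type*} [Field K] (h : K) (q : K[X]) (n : ℕ)
    (hq : q.natDegree ≤ n) : (taylor h q).coeff n = q.coeff n := by
  rw [taylor_coeff, eval_eq_sum_range, ]
  have h1 : (hasseDeriv n q).natDegree = 0 := by
    have := natDegree_hasseDeriv_le q n
    omega
  rw [h1]
  simp [hasseDeriv_coeff]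

theorem taylor_coeff_sub {K : Type*} [Field K] (h : K) (q : K[X]) (n : ℕ)
    (hq : q.natDegree ≤ n + 1) :
    (taylor h q).coeff n = q.coeff n + (n + 1 : ℕ) * h * q.coeff (n + 1) := by
  have h1 : (hasseDeriv n q).natDegree ≤ 1 := by
    have := natDegree_hasseDeriv_le q n
    omega
  rw [taylor_coeff, eq_X_add_C_of_natDegree_le_one h1]
  simp only [hasseDeriv_coeff, eval_add, eval_mul, eval_C, eval_X, zero_add, Nat.choose_self,
    Nat.cast_one, one_mul, add_comm 1 n, Nat.choose_succ_self_right]
  push_cast
  ring

theorem dop_coeff {K : Type*} [Field K] (h : K) (q : K[X]) (n : ℕ)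
    (hq : q.natDegree ≤ n + 1) :
    (dop h q).coeff n = (n + 1 : ℕ) * h * q.coeff (n + 1) := by
  rw [dop_apply, coeff_sub, taylor_coeff_sub h q n hq]
  ring

theorem dop_natDegree {K : Type*} [Field K] (h : K) (q : K[X]) (n : ℕ)
    (hq : q.natDegree ≤ n + 1) : (dop h q).natDegree ≤ n := by
  rw [natDegree_le_iff_coeff_eq_zero]
  intro m hm
  rw [dop_apply, coeff_sub, taylor_coeff_top h q m (by omega), sub_self]

theorem dop_pow {K : Type*} [Field K] (h : K) (j n : ℕ) (q : K[X])
    (hq : q.natDegree ≤ n + j) :
    ((dop h ^ j) q).natDegree ≤ n ∧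
      ((dop h ^ j) q).coeff n = ((n + j).descFactorial j : ℕ) * h ^ j * q.coeff (n + j) := by
  induction j generalizing q with
  | zero => simpa using hq
  | succ j ih =>
    have h1 := ih (dop h q) (dop_natDegree h q (n + j) (by omega))
    have h2 : (dop h ^ (j + 1)) q = (dop h ^ j) (dop h q) := by
      rw [pow_succ]
      rfl
    rw [h2]
    refine ⟨h1.1, ?_⟩
    rw [h1.2, dop_coeff h q (n + j) (by omega), ← add_assoc, Nat.succ_descFactorial_succ]
    push_cast
    ring

theorem dop_pow_zero {K : Type*} [Field K] (h : K) (j : ℕ) (q : K[X])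
    (hq : q.natDegree < j) : (dop h ^ j) q = 0 := by
  obtain ⟨d, rfl⟩ := Nat.exists_eq_add_of_lt (Nat.lt_of_le_of_lt (Nat.zero_le _) hq)
  have h1 := (dop_pow h d 0 q (by omega)).1
  have h2 : (dop h ^ (0 + d + 1)) q = dop h ((dop h ^ d) q) := by
    rw [zero_add, pow_succ']
    rfl
  rw [h2]
  have h3 := natDegree_eq_zero.mp (Nat.le_zero.mp h1)
  obtain ⟨x, hx⟩ := h3
  rw [← hx, dop_apply, taylor_C, sub_self]

/-- the graded difference operators `X ^ j * (dop h) ^ j` -/
noncomputable def gop {K : Type*} [Field K] (h : K) (j : ℕ) : K[X] →ₗ[K] K[X] :=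
  (LinearMap.mulLeft K (X ^ j : K[X])).comp (dop h ^ j : Module.End K K[X])

theorem gop_apply {K : Type*} [Field K] (h : K) (j : ℕ) (q : K[X]) :
    gop h j q = X ^ j * (dop h ^ j) q := rfl

theorem dop_expand {K : Type*} [Field K] (h : K) (j : ℕ) (q : K[X]) :
    (dop h ^ j) q = ∑ k ∈ range (j + 1), ((-1 : K) ^ (j - k) * (j.choose k : K))
      • taylor (h * k) q := by
  have h0 : ∀ k : ℕ, ((taylor h : Module.End K K[X]) ^ k) q = taylor (h * k) q := by
    intro k
    induction k with
    | zero => simp
    | succ k ih =>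
      rw [pow_succ', Module.End.mul_apply, ih, taylor_taylor]
      congr 2
      push_cast
      ring
  have h1 : (dop h : Module.End K K[X]) = (taylor h : Module.End K K[X]) + (-1) := by
    rw [dop, sub_eq_add_neg]
  rw [h1, (Commute.neg_one_right (taylor h : Module.End K K[X])).add_pow, LinearMap.sum_apply]
  apply sum_congr rfl
  intro k _
  have h2 : ((taylor h : Module.End K K[X]) ^ k * (-1) ^ (j - k) * (j.choose k : Module.End K K[X]))
      = ((-1 : K) ^ (j - k) * (j.choose k : K)) • ((taylor h : Module.End K K[X]) ^ k) := by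
    have h3 : ((-1) ^ (j - k) : Module.End K K[X]) * (j.choose k : Module.End K K[X])
        = algebraMap K (Module.End K K[X]) ((-1 : K) ^ (j - k) * (j.choose k : K)) := by
      rw [map_mul, map_pow, map_neg, map_one, map_natCast]
    rw [mul_assoc, h3, ← Algebra.commutes, ← Algebra.smul_def]
  rw [h2, LinearMap.smul_apply, h0]

theorem dop_expand_fin {K : Type*} [Field K] (h : K) {e j : ℕ} (hj : j < e) (q : K[X]) :
    (dop h ^ j) q = ∑ k : Fin e, C ((-1 : K) ^ (j - (k : ℕ)) * (j.choose (k : ℕ) : K))
      * taylor (h * (k : ℕ)) q := by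
  rw [dop_expand, Fin.sum_univ_eq_sum_range (fun k : ℕ =>
    C ((-1 : K) ^ (j - k) * (j.choose k : K)) * taylor (h * k) q) e]
  have h1 : ∀ k ∈ range (j + 1), ((-1 : K) ^ (j - k) * (j.choose k : K)) • taylor (h * k) q
      = C ((-1 : K) ^ (j - k) * (j.choose k : K)) * taylor (h * k) q := by
    intro k _
    rw [smul_eq_C_mul]
  rw [sum_congr rfl h1]
  apply sum_subset
  · intro k hk
    simp only [mem_range] at hk ⊢
    omega
  · intro k _ hk
    simp only [mem_range, not_lt] at hk
    rw [Nat.choose_eq_zero_of_lt (by omega)]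
    simp

theorem gop_det_ne_zero {K : Type*} [Field K] [CharZero K] {e : ℕ} (q : Fin e → K[X])
    (hq : LinearIndependent K q) (h : K) (hh : h ≠ 0) :
    (Matrix.of fun i l : Fin e => gop h (i : ℕ) (q l)).det ≠ 0 := by
  apply det_lin_ne_zero (fun i : Fin e => gop h (i : ℕ)) (fun i => h ^ (i : ℕ))
    (fun i => pow_ne_zero _ hh) _ _ q hq
  · intro i g
    simp only [gop_apply]
    rcases Nat.lt_or_ge g.natDegree i with hlt | hge
    · rw [dop_pow_zero h i g hlt]
      simp
    · have h1 := (dop_pow h i (g.natDegree - i) g (by omega)).1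
      calc (X ^ (i : ℕ) * (dop h ^ (i : ℕ)) g).natDegree
          ≤ (X ^ (i : ℕ) : K[X]).natDegree + ((dop h ^ (i : ℕ)) g).natDegree := natDegree_mul_le
        _ ≤ i + (g.natDegree - i) := by
            apply add_le_add
            · simp
            · exact h1
        _ = g.natDegree := by omega
  · intro i g
    simp only [gop_apply]
    rw [descPochhammer_eval_eq_descFactorial]
    rcases Nat.lt_or_ge g.natDegree i with hlt | hge
    · rw [dop_pow_zero h i g hlt, Nat.descFactorial_eq_zero_iff_lt.mpr hlt]
      simp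
    · obtain ⟨d, hd⟩ := Nat.exists_eq_add_of_le hge
      have h1 := (dop_pow h i d g (by omega)).2
      rw [leadingCoeff, hd, add_comm (i : ℕ) d, coeff_X_pow_mul, h1]
      ring

/-- Casoratian: for linearly independent polynomials `q i` the determinant of the matrix
`q i (y + h j)` is a nonzero polynomial in `y` of degree at most `e * D`. -/
theorem cas {K : Type*} [Field K] [CharZero K] {e D : ℕ} (q : Fin e → K[X])
    (hq : LinearIndependent K q) (hD : ∀ i, (q i).natDegree ≤ D) (h : K) (hh : h ≠ 0) :
    ∃ U : K[X], U ≠ 0 ∧ U.natDegree ≤ e * D ∧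
      ∀ y : K, U.eval y = (Matrix.of fun i j : Fin e => (q i).eval (y + h * (j : ℕ))).det := by
  refine ⟨(Matrix.of fun i j : Fin e => taylor (h * (j : ℕ)) (q i)).det, ?_, ?_, ?_⟩
  · intro hz
    apply gop_det_ne_zero q hq h hh
    have h1 : (Matrix.of fun i l : Fin e => gop h (i : ℕ) (q l))
        = Matrix.of fun i l : Fin e => (X ^ (i : ℕ) : K[X])
          * (Matrix.of fun i l : Fin e => (dop h ^ (i : ℕ)) (q l)) i l := rfl
    have h2 : (Matrix.of fun i l : Fin e => (dop h ^ (i : ℕ)) (q l))
        = (Matrix.of fun i k : Fin e =>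
            (C ((-1 : K) ^ ((i : ℕ) - (k : ℕ)) * ((i : ℕ).choose (k : ℕ) : K)) : K[X]))
          * (Matrix.of fun i j : Fin e => taylor (h * (j : ℕ)) (q i)).transpose := by
      ext1 i l
      rw [Matrix.mul_apply]
      simp only [Matrix.of_apply, Matrix.transpose_apply]
      exact dop_expand_fin h i.2 (q l)
    rw [h1, Matrix.det_mul_column (fun i : Fin e => (X ^ (i : ℕ) : K[X])), h2, Matrix.det_mul,
      Matrix.det_transpose, hz, mul_zero, mul_zero]
  · rw [Matrix.det_apply']
    apply natDegree_sum_le_of_forall_le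
    intro σ _
    have h3 : ((((Equiv.Perm.sign σ : ℤˣ) : ℤ) : K[X]))
        = C (((Equiv.Perm.sign σ : ℤˣ) : ℤ) : K) := by simp
    rw [h3]
    refine (natDegree_C_mul_le _ _).trans ((natDegree_prod_le _ _).trans ?_)
    calc ∑ i : Fin e, ((Matrix.of fun i j : Fin e => taylor (h * (j : ℕ)) (q i)) (σ i) i).natDegree
        ≤ ∑ _i : Fin e, D := by
          apply sum_le_sum
          intro i _
          simp only [Matrix.of_apply, natDegree_taylor]
          exact hD _
      _ = e * D := by simp
  · intro y
    rw [← coe_evalRingHom, RingHom.map_det]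
    congr 1
    ext1 i j
    simp only [RingHom.mapMatrix_apply, Matrix.map_apply, Matrix.of_apply, coe_evalRingHom,
      taylor_eval]

/-- all but at most `e * D` values `y` give an invertible matrix `q i (y + h j)`. -/
theorem cas_card {K : Type*} [Field K] [CharZero K] {e D : ℕ} (q : Fin e → K[X])
    (hq : LinearIndependent K q) (hD : ∀ i, (q i).natDegree ≤ D) (h : K) (hh : h ≠ 0)
    (S : Finset K)
    (hS : ∀ y ∈ S, (Matrix.of fun i j : Fin e => (q i).eval (y + h * (j : ℕ))).det = 0) :
    S.card ≤ e * D := by
  classical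
  obtain ⟨U, h0, h1, h2⟩ := cas q hq hD h hh
  refine le_trans ?_ h1
  have h3 : S ⊆ U.roots.toFinset := by
    intro y hy
    rw [Multiset.mem_toFinset, mem_roots h0, IsRoot.def, h2 y, hS y hy]
  calc S.card ≤ U.roots.toFinset.card := card_le_card h3
    _ ≤ Multiset.card U.roots := Multiset.toFinset_card_le _
    _ ≤ U.natDegree := card_roots' U

end Pool.ZC71
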