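import Mathlib

namespace Pool.ZC71
open Polynomial Finset

/-- the matrix with the graded Wronskian as determinant -/
noncomputable def wmat {K : Type*} [Field K] {r : ℕ} (f : Fin r → K[X]) :
    Matrix (Fin r) (Fin r) K[X] :=
  Matrix.of fun i l : Fin r => X ^ (i : ℕ) * derivative^[(i : ℕ)] (f l)

theorem coeff_prod_le {K ι : Type*} [CommRing K] (s : Finset ι) (f : ι → K[X]) (n : ι → ℕ)
    (h : ∀ i ∈ s, (f i).natDegree ≤ n i) :
    (∏ i ∈ s, f i).coeff (∑ i ∈ s, n i) = ∏ i ∈ s, (f i).coeff (n i) := by
  classical
  induction s using Finset.induction_on with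
  | empty => simp
  | insert a s ha ih =>
    have h2 : (∏ i ∈ s, f i).natDegree ≤ ∑ i ∈ s, n i :=
      (natDegree_prod_le s f).trans (sum_le_sum fun i hi => h i (mem_insert_of_mem hi))
    rw [prod_insert ha, sum_insert ha, prod_insert ha,
      coeff_mul_add_eq_of_natDegree_le (h a (mem_insert_self a s)) h2,
      ih (fun i hi => h i (mem_insert_of_mem hi))]

theorem natDegree_entry {K : Type*} [Field K] (i : ℕ) (g : K[X]) :
    (X ^ i * derivative^[i] g).natDegree ≤ g.natDegree := by
  rcases Nat.lt_or_ge g.natDegree i with h | h
  · rw [iterate_derivative_eq_zero h]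
    simp
  · calc (X ^ i * derivative^[i] g).natDegree ≤ (X ^ i : K[X]).natDegree
        + (derivative^[i] g).natDegree := natDegree_mul_le
      _ ≤ i + (g.natDegree - i) := by
          apply add_le_add
          · simp
          · exact natDegree_iterate_derivative g i
      _ = g.natDegree := by omega

theorem coeff_entry {K : Type*} [Field K] (i : ℕ) (g : K[X]) :
    (X ^ i * derivative^[i] g).coeff g.natDegree
      = g.leadingCoeff * (descPochhammer K i).eval (g.natDegree : K) := by
  rw [descPochhammer_eval_eq_descFactorial]
  rcases Nat.lt_or_ge g.natDegree i with h | h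
  · rw [iterate_derivative_eq_zero h, Nat.descFactorial_eq_zero_iff_lt.mpr h]
    simp
  · obtain ⟨d, hd⟩ := Nat.exists_eq_add_of_le h
    rw [hd, add_comm i d, coeff_X_pow_mul, coeff_iterate_derivative, nsmul_eq_mul, mul_comm]
    rw [leadingCoeff, hd, add_comm i d]

theorem det_wmat_ne_zero_of_distinct {K : Type*} [Field K] [CharZero K] {r : ℕ}
    (g : Fin r → K[X]) (h0 : ∀ l, g l ≠ 0)
    (hd : Function.Injective fun l => (g l).natDegree) : (wmat g).det ≠ 0 := by
  intro hz
  have h1 : (wmat g).det.coeff (∑ l, (g l).natDegree) = 0 := by rw [hz, coeff_zero]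
  rw [Matrix.det_apply', finsetSum_coeff] at h1
  have h2 : ∀ σ : Equiv.Perm (Fin r),
      ((((Equiv.Perm.sign σ : ℤˣ) : ℤ) : K[X]) * ∏ l, wmat g (σ l) l).coeff
        (∑ l, (g l).natDegree)
      = (((Equiv.Perm.sign σ : ℤˣ) : ℤ) : K) * ∏ l, ((g l).leadingCoeff
        * (descPochhammer K (σ l : Fin r)).eval ((g l).natDegree : K)) := by
    intro σ
    have h3 : ((((Equiv.Perm.sign σ : ℤˣ) : ℤ) : K[X]))
        = C (((Equiv.Perm.sign σ : ℤˣ) : ℤ) : K) := by simp
    have h7 := coeff_prod_le (univ : Finset (Fin r)) (fun l => wmat g (σ l) l)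
      (fun l => (g l).natDegree) fun l _ => natDegree_entry ((σ l : Fin r) : ℕ) (g l)
    rw [h3, coeff_C_mul, h7]
    congr 1
    exact prod_congr rfl fun l _ => coeff_entry ((σ l : Fin r) : ℕ) (g l)
  rw [sum_congr rfl fun σ _ => h2 σ] at h1
  have h4 : (Matrix.of fun i l : Fin r => (g l).leadingCoeff
      * (descPochhammer K (i : ℕ)).eval ((g l).natDegree : K)).det = 0 := by
    rw [Matrix.det_apply', ← h1]
    rfl
  have h8 := Matrix.det_mul_row (fun l => (g l).leadingCoeff)
    (Matrix.of fun i l : Fin r => (descPochhammer K (i : ℕ)).eval ((g l).natDegree : K))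
  simp only [Matrix.of_apply] at h8
  rw [h8] at h4
  have h5 : (Matrix.of fun i l : Fin r =>
      (descPochhammer K (i : ℕ)).eval ((g l).natDegree : K)).det
      = (Matrix.vandermonde fun l => ((g l).natDegree : K)).det := by
    rw [Matrix.det_eval_matrixOfPolynomials_eq_det_vandermonde _
      (fun i : Fin r => descPochhammer K (i : ℕ)) (fun i => descPochhammer_natDegree K i)
      (fun i => monic_descPochhammer K i), ← Matrix.det_transpose]
    rfl
  rw [h5] at h4
  rcases mul_eq_zero.mp h4 with h6 | h6
  · rw [prod_eq_zero_iff] at h6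
    obtain ⟨l, _, hl⟩ := h6
    exact h0 l (leadingCoeff_eq_zero.mp hl)
  · exact Matrix.det_vandermonde_ne_zero_iff.mpr
      (fun a b hab => hd (Nat.cast_injective hab)) h6

/-- Gauss reduction to distinct degrees. -/
theorem exists_distinct {K : Type*} [Field K] {r : ℕ} (N : ℕ) (f : Fin r → K[X])
    (hf : LinearIndependent K f) (hN : ∑ l, (f l).natDegree ≤ N) :
    ∃ g : Fin r → K[X], LinearIndependent K g ∧
      (Function.Injective fun l => (g l).natDegree) ∧
      Submodule.span K (Set.range g) = Submodule.span K (Set.range f) ∧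
      (wmat g).det = (wmat f).det := by
  classical
  induction N using Nat.strong_induction_on generalizing f with
  | _ N ih =>
    by_cases hinj : Function.Injective fun l => (f l).natDegree
    · exact ⟨f, hf, hinj, rfl, rfl⟩
    · rw [Function.Injective] at hinj
      push Not at hinj
      obtain ⟨a, b, hab, hne⟩ := hinj
      have ha0 : f a ≠ 0 := hf.ne_zero a
      have hb0 : f b ≠ 0 := hf.ne_zero b
      set c : K := (f a).leadingCoeff / (f b).leadingCoeff with hc
      have hc0 : c ≠ 0 := div_ne_zero (leadingCoeff_ne_zero.mpr ha0) (leadingCoeff_ne_zero.mpr hb0)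
      set v : Fin r → K := fun l => if l = a then -c else 0 with hv
      set g : Fin r → K[X] := f + (v · • f b) with hg
      have hvb : v b = 0 := by
        simp only [hv]
        rw [if_neg (Ne.symm hne)]
      have hgl : LinearIndependent K g := (linearIndependent_add_smul_iff hvb).mpr hf
      have hga : g a = f a - C c * f b := by
        simp only [hg, hv, Pi.add_apply, if_true, smul_eq_C_mul, C_neg]
        ring
      have hgo : ∀ l, l ≠ a → g l = f l := by
        intro l hl
        simp only [hg, hv, Pi.add_apply, if_neg hl, zero_smul, add_zero]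
      have hlt : (g a).natDegree < (f a).natDegree := by
        have hdeg : (f a).degree = (C c * f b).degree := by
          rw [degree_C_mul hc0, degree_eq_natDegree ha0, degree_eq_natDegree hb0, hab]
        have hlc : (f a).leadingCoeff = (C c * f b).leadingCoeff := by
          rw [leadingCoeff_mul, leadingCoeff_C, hc,
            div_mul_cancel₀ _ (leadingCoeff_ne_zero.mpr hb0)]
        have h3 := degree_sub_lt_left hdeg ha0 hlc
        rw [← hga] at h3
        exact natDegree_lt_natDegree (hgl.ne_zero a) h3
      have hsum : ∑ l, (g l).natDegree < ∑ l, (f l).natDegree := by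
        apply sum_lt_sum
        · intro l _
          by_cases hl : l = a
          · rw [hl]
            exact hlt.le
          · rw [hgo l hl]
        · exact ⟨a, mem_univ a, hlt⟩
      obtain ⟨g', h1, h2, h3, h4⟩ := ih (∑ l, (g l).natDegree) (lt_of_lt_of_le hsum hN) g hgl le_rfl
      refine ⟨g', h1, h2, ?_, ?_⟩
      · rw [h3]
        have hgb : g b = f b := hgo b (Ne.symm hne)
        apply le_antisymm
        · rw [Submodule.span_le]
          rintro _ ⟨l, rfl⟩
          by_cases hl : l = a
          · rw [hl, hga, ← smul_eq_C_mul]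
            exact Submodule.sub_mem _ (Submodule.subset_span ⟨a, rfl⟩)
              (Submodule.smul_mem _ _ (Submodule.subset_span ⟨b, rfl⟩))
          · rw [hgo l hl]
            exact Submodule.subset_span ⟨l, rfl⟩
        · rw [Submodule.span_le]
          rintro _ ⟨l, rfl⟩
          by_cases hl : l = a
          · have h5 : f a = g a + c • g b := by
              rw [hga, hgb, smul_eq_C_mul]
              ring
            rw [hl, h5]
            exact Submodule.add_mem _ (Submodule.subset_span ⟨a, rfl⟩)
              (Submodule.smul_mem _ _ (Submodule.subset_span ⟨b, rfl⟩))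
          · rw [← hgo l hl]
            exact Submodule.subset_span ⟨l, rfl⟩
      · rw [h4]
        have h5 : wmat g = (wmat f).updateCol a
            (fun k => wmat f k a + (-C c) • wmat f k b) := by
          ext1 k l
          by_cases hl : l = a
          · subst hl
            rw [Matrix.updateCol_self]
            simp only [wmat, Matrix.of_apply, hga, iterate_derivative_sub,
              iterate_derivative_C_mul, smul_eq_mul]
            ring
          · rw [Matrix.updateCol_ne hl]
            simp only [wmat, Matrix.of_apply, hgo l hl]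
        rw [h5, Matrix.det_updateCol_add_smul_self _ hne]

theorem ld {K : Type*} [Field K] [CharZero K] {r : ℕ} (f : Fin r → K[X])
    (hf : LinearIndependent K f) : (wmat f).det ≠ 0 := by
  obtain ⟨g, h1, h2, _, h4⟩ := exists_distinct _ f hf le_rfl
  rw [← h4]
  exact det_wmat_ne_zero_of_distinct g (fun l => h1.ne_zero l) h2

end Pool.ZC71
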